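import Mathlib

namespace Pool.Agent.Results.MP_9837da_co.Five
open Finset

/-- Number of integers `x` with `a ≤ x < b` of colour `j`. -/
noncomputable def cnt (c : ℤ → Fin 4) (j : Fin 4) (a b : ℤ) : ℕ :=
  ((Ico a b).filter fun x => c x = j).card

def bad (L : List ℕ) : Bool :=
  (List.range ((L.length + 1) / 2)).any fun h => decide (0 < h) &&
    (((L.getD 0 0 - L.getD (2 * h) 0) &&& 266305 == 0) &&
      (List.range (h + 1)).any fun i =>
        2 * (L.getD i 0 - L.getD (i + h) 0) == L.getD 0 0 - L.getD (2 * h) 0)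

def dfs : ℕ → List ℕ → Bool
  | 0, _ => false
  | f + 1, L => [1, 64, 4096, 262144].all fun w =>
      bad ((L.getD 0 0 + w) :: L) || dfs f ((L.getD 0 0 + w) :: L)

lemma run : dfs 30 [65, 1, 0] = true := by decide +kernel

def N (c : ℕ → Fin 4) (j : Fin 4) (m : ℕ) : ℕ := ∑ x ∈ range m, if c x = j then 1 else 0

def P (c : ℕ → Fin 4) (m : ℕ) : ℕ := N c 0 m + 64 * N c 1 m + 4096 * N c 2 m + 262144 * N c 3 m

def Lc (c : ℕ → Fin 4) : ℕ → List ℕ
  | 0 => [0]
  | m + 1 => P c (m + 1) :: Lc c m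

lemma Lc_get (c : ℕ → Fin 4) : ∀ m i, i ≤ m → (Lc c m).getD i 0 = P c (m - i)
  | 0, 0, _ => by simp [Lc, P, N]
  | m + 1, 0, _ => by simp [Lc]
  | m + 1, i + 1, h => by
    rw [Lc, List.getD_cons_succ, Lc_get c m i (by omega), Nat.add_sub_add_right]

lemma Lc_len (c : ℕ → Fin 4) : ∀ m, (Lc c m).length = m + 1
  | 0 => rfl
  | m + 1 => by rw [Lc, List.length_cons, Lc_len c m]

lemma sound (c : ℕ → Fin 4) : ∀ f m, dfs f (Lc c m) = true →
    ∃ m' ≤ m + f, bad (Lc c m') = true := by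
  intro f
  induction f with
  | zero => intro m h; simp [dfs] at h
  | succ f ih =>
    intro m h
    rw [dfs, List.all_eq_true] at h
    have hw : ∃ w ∈ [1, 64, 4096, 262144], P c m + w = P c (m + 1) := by
      simp only [P, N, sum_range_succ]
      generalize c m = x
      fin_cases x <;> simp <;> omega
    obtain ⟨w, hw, e⟩ := hw
    have := h w hw
    rw [Lc_get c m 0 (by omega), Nat.sub_zero, e, ← Lc, Bool.or_eq_true] at this
    rcases this with h | h
    · exact ⟨m + 1, by omega, h⟩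
    · obtain ⟨m', h1, h2⟩ := ih _ h
      exact ⟨m', by omega, h2⟩

lemma N_le (c : ℕ → Fin 4) (j : Fin 4) (a d : ℕ) :
    N c j a ≤ N c j (a + d) ∧ N c j (a + d) ≤ N c j a + d := by
  induction d with
  | zero => simp
  | succ d ih =>
    have e : N c j (a + (d + 1)) = N c j (a + d) + if c (a + d) = j then 1 else 0 :=
      sum_range_succ _ _
    rw [e]; split_ifs <;> omega

lemma core (c : ℕ → Fin 4) (h0 : c 0 = 0) (h1 : c 1 = 1) : ∃ s u v m : ℕ, s ≤ u ∧ u ≤ v ∧ v ≤ m ∧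
    s < m ∧ ∀ j, N c j m + 2 * N c j u = N c j s + 2 * N c j v := by
  have e : Lc c 2 = [65, 1, 0] := by
    simp only [Lc, P, N, sum_range_succ, range_zero, sum_empty, h0, h1, Nat.zero_add]
    decide
  obtain ⟨m, hm, hb⟩ := sound c 30 2 (e ▸ run)
  simp only [bad, List.any_eq_true, Bool.and_eq_true, decide_eq_true_eq, List.mem_range,
    beq_iff_eq, Lc_len] at hb
  obtain ⟨h, h2, h3, -, i, hi, h4⟩ := hb
  rw [Lc_get c m _ (by omega), Lc_get c m _ (by omega), Lc_get c m _ (by omega),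
    Lc_get c m _ (by omega)] at h4
  refine ⟨m - 2 * h, m - (i + h), m - i, m, by omega, by omega, by omega, by omega, ?_⟩
  have k : ∀ j, N c j (m - 2 * h) ≤ N c j (m - (i + h)) ∧ N c j (m - (i + h)) ≤ N c j (m - i) ∧
      N c j (m - i) ≤ N c j m ∧ N c j m ≤ N c j (m - 2 * h) + 32 ∧
      N c j (m - i) ≤ N c j (m - (i + h)) + 16 := by
    intro j
    have a1 := N_le c j (m - 2 * h) (h - i)
    have a2 := N_le c j (m - (i + h)) h
    have a3 := N_le c j (m - i) i
    rw [show m - 2 * h + (h - i) = m - (i + h) by omega] at a1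
    rw [show m - (i + h) + h = m - i by omega] at a2
    rw [show m - i + i = m by omega] at a3
    omega
  have k0 := k 0
  have k1 := k 1
  have k2 := k 2
  have k3 := k 3
  simp only [P, Nat.sub_zero] at h4
  intro j
  fin_cases j <;> simp only [Fin.zero_eta, Fin.mk_one, Fin.reduceFinMk] <;> omega

lemma cnt_eq (c : ℤ → Fin 4) (j : Fin 4) (a d : ℕ) :
    N (fun x => c x) j (a + d) = N (fun x => c x) j a + cnt c j a (a + d : ℕ) := by
  induction d with
  | zero => simp [cnt]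
  | succ d ih =>
    rw [← add_assoc, N, sum_range_succ, ← N, ih, cnt, cnt]
    have : Ico (a : ℤ) ((a + d + 1 : ℕ) : ℤ) = insert ((a + d : ℕ) : ℤ) (Ico (a : ℤ) (a + d : ℕ)) := by
      ext x; simp only [mem_Ico, mem_insert]; omega
    rw [this, filter_insert]
    split_ifs
    · rw [card_insert_of_notMem (by simp)]; omega
    · rfl

lemma core2 (c : ℤ → Fin 4) (h0 : c 0 = 0) (h1 : c 1 = 1) : ∃ s u v m : ℤ, s ≤ u ∧ u ≤ v ∧ v ≤ m ∧
    s < m ∧ ∀ j, cnt c j s u + cnt c j v m = cnt c j u v := by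
  obtain ⟨s, u, v, m, a1, a2, a3, a4, h⟩ := core (fun x => c x) h0 h1
  refine ⟨s, u, v, m, by omega, by omega, by omega, by omega, fun j => ?_⟩
  have b1 := cnt_eq c j s (u - s)
  have b2 := cnt_eq c j u (v - u)
  have b3 := cnt_eq c j v (m - v)
  rw [Nat.add_sub_cancel' a1] at b1
  rw [Nat.add_sub_cancel' a2] at b2
  rw [Nat.add_sub_cancel' a3] at b3
  have := h j
  omega

theorem result (c : ℤ → Fin 4) : ∃ s u v m : ℤ, s ≤ u ∧ u ≤ v ∧ v ≤ m ∧ s < m ∧
    ∀ j, cnt c j s u + cnt c j v m = cnt c j u v := by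
  by_cases h : c 0 = c 1
  · refine ⟨0, 1, 2, 2, by omega, by omega, by omega, by omega, fun j => ?_⟩
    have e1 : Ico (0 : ℤ) 1 = {0} := by decide
    have e2 : Ico (1 : ℤ) 2 = {1} := by decide
    simp only [cnt, e1, e2, Ico_self, filter_singleton, h]
    split_ifs <;> simp
  · have hp : ∀ a b : Fin 4, a ≠ b → ∃ σ : Equiv.Perm (Fin 4), σ a = 0 ∧ σ b = 1 := by decide
    obtain ⟨σ, s0, s1⟩ := hp _ _ h
    obtain ⟨s, u, v, m, a1, a2, a3, a4, hh⟩ := core2 (fun x => σ (c x)) s0 s1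
    refine ⟨s, u, v, m, a1, a2, a3, a4, fun j => ?_⟩
    simpa [cnt] using hh (σ j)

end Pool.Agent.Results.MP_9837da_co.Five
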